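import Pool.Agent.H64.BTL.Stmts

/-!
Row LOC of the board `btl`: Laurent series over `ZMod p` are a local field of characteristic `p`.
-/

set_option autoImplicit false

noncomputable section

namespace Pool.BTL

namespace LOCaux

open LaurentSeries PowerSeries WithZero

open scoped Valued LaurentSeries

variable (K : Type) [Field K]

/-- The isomorphism between power series and the valuation ring. -/
def toInt : K⟦X⟧ →+* 𝒪[K⸨X⸩] where
  toFun f := ⟨(f : K⸨X⸩), (val_le_one_iff_eq_coe K _).2 ⟨f, rfl⟩⟩
  map_one' := by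
    ext1
    simp
  map_mul' a b := by
    ext1
    simp
  map_zero' := by
    ext1
    simp
  map_add' a b := by
    ext1
    simp

theorem toInt_bij : Function.Bijective (toInt K) := by
  constructor
  · intro a b h
    have h1 : (a : K⸨X⸩) = (b : K⸨X⸩) := congrArg (fun z : 𝒪[K⸨X⸩] => (z : K⸨X⸩)) h
    exact HahnSeries.ofPowerSeries_injective h1
  · rintro ⟨f, hf⟩
    obtain ⟨F, hF⟩ := (val_le_one_iff_eq_coe K f).1 hf
    exact ⟨F, Subtype.ext hF⟩

/-- The isomorphism between power series and the valuation ring. -/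
def eqv : K⟦X⟧ ≃+* 𝒪[K⸨X⸩] := RingEquiv.ofBijective (toInt K) (toInt_bij K)

theorem dvr : IsDiscreteValuationRing 𝒪[K⸨X⸩] :=
  IsDiscreteValuationRing.RingEquivClass.isDiscreteValuationRing (eqv K)

theorem fin [Finite K] : Finite 𝓀[K⸨X⸩] :=
  Finite.of_equiv K ((residueFieldOfPowerSeries (k := K)).symm.trans
    (IsLocalRing.ResidueField.mapEquiv (eqv K))).toEquiv

/-- The valuation has rank one. -/
@[instance_reducible]
def rk : (Valued.v : Valuation K⸨X⸩ ℤᵐ⁰).RankOne := by
  haveI : (Valued.v : Valuation K⸨X⸩ ℤᵐ⁰).IsRankOneDiscrete := by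
    rw [valuation_def]
    infer_instance
  exact Valuation.IsRankOneDiscrete.rankOne (e := 2) _ (by norm_num)

end LOCaux

theorem LOC_thm : LOCStmt := by
  intro p hp
  let : (Valued.v : Valuation (LaurentSeries (ZMod p)) (WithZero (Multiplicative ℤ))).RankOne :=
    LOCaux.rk (ZMod p)
  let h1 : NontriviallyNormedField (LaurentSeries (ZMod p)) :=
    Valued.toNontriviallyNormedField (LaurentSeries (ZMod p)) (WithZero (Multiplicative ℤ))
  refine ⟨LaurentSeries (ZMod p), h1, ?_, ?_, ?_⟩
  · exact Valued.integer.properSpace_iff_completeSpace_and_isDiscreteValuationRing_integer_and_finite_residueField.2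
      ⟨inferInstance, LOCaux.dvr (ZMod p), LOCaux.fin (ZMod p)⟩
  · exact Valued.instIsUltrametricDist (LaurentSeries (ZMod p)) (WithZero (Multiplicative ℤ))
  · exact charP_of_injective_algebraMap
      (algebraMap (ZMod p) (LaurentSeries (ZMod p))).injective p

end Pool.BTL

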